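import Mathlib
import Pool.Agent.Helper868.DHJ

/-!
# Good sequences without a ratio limit (MP_d99131_an, Q1 disproved)

* goodness of `(λ_n)` passes to every `(μ_n)` with `m ≤ |μ_n / λ_n| ≤ M` off a set of density `0`;
* the constant sequence is good (Szemerédi, from density Hales-Jewett), hence every sequence that
  is bounded and bounded away from `0` is good;
* the sequence `λ_n = 1` (`v₂(n)` even), `λ_n = 2` (`v₂(n)` odd) is good, and
  `|λ_n| / |λ_{n+τ}|` has no limit for any `τ`.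
-/

namespace Pool.Agent.Results.MP_d99131_an.BoundedSequencesAreGood

open Filter Topology Set
open Pool.Agent.Helper868.DHJ (DensityHJ LineFree pt dens ind av density_hales_jewett)

/-- `|B ∩ [1, N]|`. -/
noncomputable def cnt (B : Set ℕ) (N : ℕ) : ℕ := (B ∩ Set.Icc 1 N).ncard

/-- Upper density of a set of positive integers. -/
noncomputable def upperDens (B : Set ℕ) : ℝ := limsup (fun N : ℕ => (cnt B N : ℝ) / N) atTop

universe u

/-- Property `𝒜` of a sequence of operators `S 1, S 2, …`. -/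
def PropertyA {X : Type u} [NormedAddCommGroup X] [NormedSpace ℂ X] (S : ℕ → X →L[ℂ] X) : Prop :=
  ∀ U : Set X, IsOpen U → U.Nonempty → ∃ x : X, 0 < upperDens {n | 1 ≤ n ∧ S n x ∈ U}

/-- Topological multiple recurrence. -/
def MultiplyRecurrent {X : Type u} [NormedAddCommGroup X] [NormedSpace ℂ X] (T : X →L[ℂ] X) :
    Prop :=
  ∀ U : Set X, IsOpen U → U.Nonempty → ∀ m : ℕ, 1 ≤ m →
    ∃ k : ℕ, 1 ≤ k ∧ ∃ x ∈ U, ∀ j : ℕ, 1 ≤ j → j ≤ m → (T ^ (j * k)) x ∈ U

/-- Good sequences. -/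
def Good (lam : ℕ → ℂ) : Prop :=
  ∀ (X : Type u) [NormedAddCommGroup X] [NormedSpace ℂ X] [CompleteSpace X]
    [TopologicalSpace.SeparableSpace X], ¬ FiniteDimensional ℂ X → ∀ T : X →L[ℂ] X,
    PropertyA (fun n => lam n • T ^ n) → MultiplyRecurrent T

/-- `|λ_n| / |λ_{n+τ}|` has a limit in `[0, ∞]`. -/
def HasRatioLimit (lam : ℕ → ℂ) (τ : ℕ) : Prop :=
  ∃ a : ENNReal, Tendsto (fun n : ℕ => ENNReal.ofReal (‖lam n‖ / ‖lam (n + τ)‖)) atTop (𝓝 a)

lemma cnt_le (B : Set ℕ) (N : ℕ) : cnt B N ≤ N := by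
  unfold cnt
  calc (B ∩ Set.Icc 1 N).ncard ≤ (Set.Icc 1 N).ncard :=
        Set.ncard_le_ncard Set.inter_subset_right (Set.finite_Icc 1 N)
    _ = N := by
        rw [Set.ncard_eq_toFinset_card' (Set.Icc 1 N)]; simp

lemma cnt_mono {A B : Set ℕ} (h : ∀ n, 1 ≤ n → n ∈ A → n ∈ B) (N : ℕ) : cnt A N ≤ cnt B N := by
  unfold cnt
  refine Set.ncard_le_ncard ?_ ((Set.finite_Icc 1 N).subset Set.inter_subset_right)
  rintro n ⟨h1, h2⟩
  exact ⟨h n h2.1 h1, h2⟩

lemma cnt_union (A B : Set ℕ) (N : ℕ) : cnt (A ∪ B) N ≤ cnt A N + cnt B N := by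
  unfold cnt
  rw [Set.union_inter_distrib_right]
  exact Set.ncard_union_le _ _

/-- Positive upper density in quantitative form. -/
def Pos (B : Set ℕ) : Prop := ∃ δ : ℝ, 0 < δ ∧ ∃ᶠ N : ℕ in atTop, δ * N ≤ cnt B N

lemma ratio_le (B : Set ℕ) (N : ℕ) : (cnt B N : ℝ) / N ≤ 1 := by
  rcases Nat.eq_zero_or_pos N with h | h
  · subst h; simp
  · rw [div_le_one (by exact_mod_cast h)]
    exact_mod_cast cnt_le B N

lemma bdd (B : Set ℕ) : IsBoundedUnder (· ≤ ·) atTop (fun N : ℕ => (cnt B N : ℝ) / N) :=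
  isBoundedUnder_of ⟨1, ratio_le B⟩

lemma cobdd (B : Set ℕ) : IsCoboundedUnder (· ≤ ·) atTop (fun N : ℕ => (cnt B N : ℝ) / N) :=
  (isBoundedUnder_of ⟨0, fun N => by positivity⟩ :
    IsBoundedUnder (· ≥ ·) atTop (fun N : ℕ => (cnt B N : ℝ) / N)).isCoboundedUnder_le

lemma pos_iff (B : Set ℕ) : 0 < upperDens B ↔ Pos B := by
  constructor
  · intro h
    refine ⟨upperDens B / 2, by linarith, ?_⟩
    have h1 : ∃ᶠ N : ℕ in atTop, upperDens B / 2 < (cnt B N : ℝ) / N :=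
      frequently_lt_of_lt_limsup (cobdd B) (by unfold upperDens at h ⊢; linarith)
    refine (h1.and_eventually (eventually_gt_atTop 0)).mono ?_
    rintro N ⟨h2, h3⟩
    rw [lt_div_iff₀ (by exact_mod_cast h3)] at h2
    exact h2.le
  · rintro ⟨δ, hδ, h⟩
    refine lt_of_lt_of_le hδ ?_
    unfold upperDens
    refine le_limsup_of_frequently_le ?_ (bdd B)
    refine (h.and_eventually (eventually_gt_atTop 0)).mono ?_
    rintro N ⟨h2, h3⟩
    rw [le_div_iff₀ (by exact_mod_cast h3)]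
    exact h2

lemma pos_mono {A B : Set ℕ} (h : ∀ n, 1 ≤ n → n ∈ A → n ∈ B) (hA : Pos A) : Pos B := by
  obtain ⟨δ, hδ, h1⟩ := hA
  refine ⟨δ, hδ, h1.mono fun N hN => hN.trans ?_⟩
  exact_mod_cast cnt_mono h N

lemma pos_union {A B : Set ℕ} (h : Pos (A ∪ B)) : Pos A ∨ Pos B := by
  by_contra hcon
  push Not at hcon
  obtain ⟨hA, hB⟩ := hcon
  obtain ⟨δ, hδ, h1⟩ := h
  unfold Pos at hA hB
  push Not at hA hB
  have h2 := hA (δ / 2) (by positivity)
  have h3 := hB (δ / 2) (by positivity)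
  refine h1 ?_
  filter_upwards [h2, h3] with N h4 h5
  have := cnt_union A B N
  have h6 : ((cnt (A ∪ B) N : ℕ) : ℝ) ≤ cnt A N + cnt B N := by exact_mod_cast this
  simp only [not_le]
  linarith

lemma not_pos_empty : ¬ Pos ∅ := by
  rintro ⟨δ, hδ, h⟩
  obtain ⟨N, h1, h2⟩ := (h.and_eventually (eventually_gt_atTop 0)).exists
  simp only [cnt, Set.empty_inter, Set.ncard_empty, Nat.cast_zero] at h1
  have : 0 < δ * N := mul_pos hδ (by exact_mod_cast h2)
  linarith

lemma pos_biUnion {ι : Type*} (F : Finset ι) (A : ι → Set ℕ) (h : Pos (⋃ i ∈ F, A i)) :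
    ∃ i ∈ F, Pos (A i) := by
  classical
  induction F using Finset.induction_on with
  | empty => simp only [Finset.notMem_empty, iUnion_of_empty, iUnion_empty] at h
             exact absurd h not_pos_empty
  | insert a s ha ih =>
      rw [Finset.set_biUnion_insert] at h
      rcases pos_union h with h | h
      · exact ⟨a, Finset.mem_insert_self a s, h⟩
      · obtain ⟨i, hi, h2⟩ := ih h
        exact ⟨i, Finset.mem_insert_of_mem hi, h2⟩

/-- Goodness passes to comparable sequences. -/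
theorem good_of_comparable {lam mu : ℕ → ℂ} (hlam : ∀ n, 1 ≤ n → lam n ≠ 0)
    {m M : ℝ} (hm : 0 < m)
    (hZ : ¬ Pos {n | ¬ (m * ‖lam n‖ ≤ ‖mu n‖ ∧ ‖mu n‖ ≤ M * ‖lam n‖)})
    (hg : Good.{u} lam) : Good.{u} mu := by
  intro X _ _ _ _ hfin T hA
  refine hg X hfin T ?_
  intro U hU hUne
  obtain ⟨u₀, hu₀⟩ := hUne
  have hcont : ContinuousAt (fun p : ℂ × X => p.1 • p.2) (1, u₀) :=
    (continuous_fst.smul continuous_snd).continuousAt
  have h1 : (fun p : ℂ × X => p.1 • p.2) ⁻¹' U ∈ 𝓝 ((1 : ℂ), u₀) :=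
    hcont (by simpa using hU.mem_nhds hu₀)
  rw [nhds_prod_eq, mem_prod_iff] at h1
  obtain ⟨W, hW, V', hV', hWV⟩ := h1
  obtain ⟨V, hVV', hVo, hu₀V⟩ := mem_nhds_iff.1 hV'
  obtain ⟨x, hx⟩ := hA V hVo ⟨u₀, hu₀V⟩
  rw [pos_iff] at hx
  -- compactness of the annulus
  let K : Set ℂ := Metric.closedBall 0 M ∩ {c | m ≤ ‖c‖}
  have hK : IsCompact K := (isCompact_closedBall 0 M).inter_right
    (isClosed_le continuous_const continuous_norm)
  have hK0 : ∀ c ∈ K, c ≠ 0 := by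
    rintro c ⟨_, hc⟩ rfl
    simp only [mem_ofPred_eq, norm_zero] at hc
    linarith
  obtain ⟨F, hFK, hcov⟩ := hK.elim_nhds_subcover (fun c₀ : ℂ => {c : ℂ | c₀ / c ∈ W ∧ c ≠ 0}) (by
    intro c₀ hc₀
    have hne := hK0 c₀ hc₀
    have : ContinuousAt (fun c : ℂ => c₀ / c) c₀ := continuousAt_const.div continuousAt_id hne
    refine Filter.inter_mem (this ?_) (isOpen_ne.mem_nhds hne)
    simpa [div_self hne] using hW)
  have h2 : Pos ({n | ¬ (m * ‖lam n‖ ≤ ‖mu n‖ ∧ ‖mu n‖ ≤ M * ‖lam n‖)} ∪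
      ⋃ c₀ ∈ F, {n | 1 ≤ n ∧ (lam n • T ^ n) (c₀ • x) ∈ U}) := by
    refine pos_mono ?_ hx
    rintro n hn ⟨-, hnV⟩
    by_cases hc : m * ‖lam n‖ ≤ ‖mu n‖ ∧ ‖mu n‖ ≤ M * ‖lam n‖
    · right
      have hl := hlam n hn
      have hl' : 0 < ‖lam n‖ := norm_pos_iff.2 hl
      have hcK : mu n / lam n ∈ K := by
        refine ⟨?_, ?_⟩
        · simp only [Metric.mem_closedBall, dist_zero_right, norm_div]
          rw [div_le_iff₀ hl']; exact hc.2
        · simp only [mem_ofPred_eq, norm_div]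
          rw [le_div_iff₀ hl']; exact hc.1
      have h3 := hcov hcK
      simp only [mem_iUnion] at h3
      obtain ⟨c₀, hc₀F, h4, h5⟩ := h3
      simp only [mem_iUnion]
      refine ⟨c₀, hc₀F, hn, ?_⟩
      have h6 := hWV (Set.mk_mem_prod h4 (hVV' hnV))
      simp only [mem_preimage] at h6
      have hmu : mu n ≠ 0 := by
        intro h; apply h5; rw [h, zero_div]
      have h7 : (lam n • T ^ n) (c₀ • x) = (c₀ / (mu n / lam n)) • (mu n • T ^ n) x := by
        simp only [smul_apply, map_smul, smul_smul]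
        congr 1
        field_simp
      rw [h7]
      exact h6
    · left
      exact hc
  rcases pos_union h2 with h3 | h3
  · exact absurd h3 hZ
  · obtain ⟨c₀, -, h4⟩ := pos_biUnion _ _ h3
    exact ⟨c₀ • x, (pos_iff _).2 h4⟩

/-- Szemerédi's theorem for sets of positive upper density. -/
theorem szemeredi {A : Set ℕ} (hA : Pos A) (m : ℕ) :
    ∃ a k : ℕ, 1 ≤ a ∧ 1 ≤ k ∧ ∀ j, j ≤ m → a + j * k ∈ A := by
  classical
  obtain ⟨δ, hδ, hfr⟩ := hA
  obtain ⟨D, hD⟩ := density_hales_jewett (Fin (m + 1)) (δ / 2) (by positivity)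
  obtain ⟨M, hM1, hM2⟩ := (hfr.and_eventually
    (eventually_ge_atTop (⌈2 * (m * D : ℝ) / δ⌉₊ + 1))).exists
  have hM0 : 0 < M := by omega
  have hMR : (0 : ℝ) < M := by exact_mod_cast hM0
  have hMge : 2 * (m * D : ℝ) / δ ≤ M := by
    calc 2 * (m * D : ℝ) / δ ≤ ⌈2 * (m * D : ℝ) / δ⌉₊ := Nat.le_ceil _
      _ ≤ M := Nat.cast_le.2 (by omega)
  let X := Fin D → Fin (m + 1)
  let sh : X → ℕ := fun x => ∑ i, (x i : ℕ)
  have hsh : ∀ x, sh x ≤ m * D := by
    intro x
    calc sh x ≤ ∑ i : Fin D, m := Finset.sum_le_sum fun i _ => by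
            have := (x i).2; omega
      _ = m * D := by simp [mul_comm]
  let Ic : Finset ℕ := (Finset.Icc 1 M).filter (· ∈ A)
  have hIc : cnt A M = Ic.card := by
    unfold cnt
    rw [← Set.ncard_coe_finset]
    congr 1
    ext n
    simp only [Set.mem_inter_iff, Set.mem_Icc, Ic, Finset.coe_filter, Finset.mem_Icc,
      Set.mem_ofPred_eq]
    tauto
  -- for every `x`, many `t ∈ [1, M]` with `t + sh x ∈ A`
  have hx : ∀ x : X, (cnt A M : ℝ) - m * D ≤
      ∑ t ∈ Finset.Icc 1 M, ind A (t + sh x) := by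
    intro x
    have h1 : Ic.card ≤ ((Finset.Icc 1 M).filter (fun t => t + sh x ∈ A)).card + sh x := by
      have h2 : Ic ⊆ (((Finset.Icc 1 M).filter (fun t => t + sh x ∈ A)).image (· + sh x)) ∪
          Finset.Icc 1 (sh x) := by
        intro n hn
        simp only [Ic, Finset.mem_filter, Finset.mem_Icc] at hn
        simp only [Finset.mem_union, Finset.mem_image, Finset.mem_filter, Finset.mem_Icc]
        by_cases h3 : n ≤ sh x
        · right; exact ⟨hn.1.1, h3⟩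
        · left
          refine ⟨n - sh x, ⟨⟨by omega, by omega⟩, ?_⟩, by omega⟩
          rw [Nat.sub_add_cancel (by omega)]
          exact hn.2
      calc Ic.card ≤ _ := Finset.card_le_card h2
        _ ≤ _ := Finset.card_union_le _ _
        _ ≤ _ := by
            refine Nat.add_le_add Finset.card_image_le ?_
            simp
    have h4 : ∑ t ∈ Finset.Icc 1 M, ind A (t + sh x) =
        (((Finset.Icc 1 M).filter (fun t => t + sh x ∈ A)).card : ℝ) := by
      rw [Finset.card_filter]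
      push_cast
      refine Finset.sum_congr rfl fun t _ => ?_
      unfold ind
      split_ifs <;> simp
    rw [h4, hIc]
    have h5 : (Ic.card : ℝ) ≤ ((Finset.Icc 1 M).filter (fun t => t + sh x ∈ A)).card + sh x := by
      exact_mod_cast h1
    have h6 : (sh x : ℝ) ≤ m * D := by exact_mod_cast hsh x
    linarith
  have hcardX : (0 : ℝ) < Fintype.card X := by exact_mod_cast Fintype.card_pos
  -- a good translate
  have hex : ∃ t ∈ Finset.Icc 1 M, δ / 2 ≤ dens {x : X | t + sh x ∈ A} := by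
    by_contra hcon
    push Not at hcon
    have h1 : ∑ t ∈ Finset.Icc 1 M, ∑ x : X, ind A (t + sh x) <
        ∑ t ∈ Finset.Icc 1 M, (δ / 2) * Fintype.card X := by
      refine Finset.sum_lt_sum_of_nonempty ⟨1, by simp; omega⟩ ?_
      intro t ht
      have h2 := hcon t ht
      unfold dens at h2
      rw [Pool.Agent.Helper868.DHJ.av_eq_sum, div_lt_iff₀ hcardX] at h2
      refine lt_of_eq_of_lt ?_ h2
      refine Finset.sum_congr rfl fun x _ => ?_
      exact Pool.Agent.Helper868.DHJ.ind_congr Iff.rfl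
    rw [Finset.sum_comm] at h1
    have h3 : ∑ x : X, ((cnt A M : ℝ) - m * D) ≤
        ∑ x : X, ∑ t ∈ Finset.Icc 1 M, ind A (t + sh x) :=
      Finset.sum_le_sum fun x _ => hx x
    simp only [Finset.sum_const, Finset.card_univ, Nat.card_Icc, nsmul_eq_mul,
      Nat.add_sub_cancel] at h1 h3
    have h4 : (Fintype.card X : ℝ) * ((cnt A M : ℝ) - m * D) <
        (Fintype.card X : ℝ) * (M * (δ / 2)) := by
      calc _ ≤ _ := h3
        _ < _ := h1
        _ = _ := by ring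
    have h5 := lt_of_mul_lt_mul_left h4 hcardX.le
    have h6 : (m * D : ℝ) ≤ M * (δ / 2) := by
      rw [div_le_iff₀ hδ] at hMge
      linarith
    linarith
  obtain ⟨t, ht, hdens⟩ := hex
  have hnot : ¬ LineFree {x : X | t + sh x ∈ A} := by
    intro hlf
    have := hD (Fin D) (by simp) _ hlf
    linarith
  unfold LineFree at hnot
  push Not at hnot
  obtain ⟨w, ⟨i0, hi0⟩, hw⟩ := hnot
  let I : Finset (Fin D) := Finset.univ.filter fun i => w i = none
  have hI : 1 ≤ I.card := Finset.card_pos.2 ⟨i0, by simp [I, hi0]⟩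
  refine ⟨t + ∑ i ∈ Finset.univ.filter (fun i => ¬ w i = none), (((w i).getD 0 : Fin (m+1)) : ℕ),
    I.card, ?_, hI, ?_⟩
  · have := (Finset.mem_Icc.1 ht).1
    omega
  · intro j hj
    have h1 : t + sh (pt w (⟨j, by omega⟩ : Fin (m + 1))) ∈ A := hw ⟨j, by omega⟩
    have h2 : sh (pt w (⟨j, by omega⟩ : Fin (m + 1))) =
        ∑ i ∈ Finset.univ.filter (fun i => ¬ w i = none), (((w i).getD 0 : Fin (m+1)) : ℕ) +
          j * I.card := by
      simp only [sh]
      rw [← Finset.sum_filter_add_sum_filter_not Finset.univ (fun i => w i = none), add_comm]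
      congr 1
      · refine Finset.sum_congr rfl fun i hi => ?_
        simp only [Finset.mem_filter, Finset.mem_univ, true_and] at hi
        obtain ⟨b, hb⟩ := Option.ne_none_iff_exists'.1 hi
        simp [pt, hb]
      · rw [Finset.sum_congr rfl (g := fun _ => j)]
        · simp [I, mul_comm]
        · intro i hi
          simp only [Finset.mem_filter, Finset.mem_univ, true_and] at hi
          simp [pt, hi]
    rw [h2, ← add_assoc] at h1
    exact h1

theorem good_one : Good.{u} (fun _ => 1) := by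
  intro X _ _ _ _ _ T hA U hU hUne m _
  obtain ⟨x, hx⟩ := hA U hU hUne
  rw [pos_iff] at hx
  obtain ⟨a, k, _, hk, h⟩ := szemeredi hx m
  refine ⟨k, hk, (T ^ a) x, ?_, ?_⟩
  · have := (h 0 (Nat.zero_le _)).2
    simpa using this
  · intro j _ hj
    have := (h j hj).2
    simp only [one_smul] at this
    rw [← mul_apply_eq_comp, ← pow_add, add_comm]
    exact this

/-- Every sequence that is bounded and bounded away from `0` off a set of density `0` is good. -/
theorem good_of_bounded {mu : ℕ → ℂ} {m M : ℝ} (hm : 0 < m)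
    (hZ : ¬ Pos {n | ¬ (m ≤ ‖mu n‖ ∧ ‖mu n‖ ≤ M)}) : Good.{u} mu :=
  good_of_comparable (lam := fun _ => 1) (by simp) hm (by simpa using hZ) good_one

/-- The counterexample: `1` if the exponent of `2` in `n` is even, `2` if it is odd. -/
noncomputable def ex (n : ℕ) : ℂ := if Even (padicValNat 2 n) then 1 else 2

lemma ex_or (n : ℕ) : ex n = 1 ∨ ex n = 2 := by
  unfold ex; split_ifs <;> simp

/-- The numbers whose exponent of `2` is exactly `j`. -/
lemma val_two (j i : ℕ) : padicValNat 2 (2 ^ j * (2 * i + 1)) = j := by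
  have : Fact (Nat.Prime 2) := ⟨Nat.prime_two⟩
  rw [padicValNat.mul (by positivity) (by omega), padicValNat.prime_pow,
    padicValNat.eq_zero_of_not_dvd (by omega), add_zero]

lemma val_add {j i τ : ℕ} (hτ : 1 ≤ τ) (hj : padicValNat 2 τ < j) :
    padicValNat 2 (2 ^ j * (2 * i + 1) + τ) = padicValNat 2 τ := by
  obtain ⟨k, t, ⟨s, hs⟩, rfl⟩ := Nat.exists_eq_two_pow_mul_odd (show τ ≠ 0 by omega)
  rw [hs, val_two] at hj ⊢
  obtain ⟨d, rfl⟩ : ∃ d, j = k + (d + 1) := ⟨j - k - 1, by omega⟩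
  have : 2 ^ (k + (d + 1)) * (2 * i + 1) + 2 ^ k * (2 * s + 1) =
      2 ^ k * (2 * (2 ^ d * (2 * i + 1) + s) + 1) := by ring
  rw [this, val_two]

lemma pos_class (j : ℕ) : Pos {n | ∃ i, n = 2 ^ j * (2 * i + 1)} := by
  refine ⟨1 / 2 ^ (j + 2), by positivity, ?_⟩
  rw [frequently_atTop]
  intro N₀
  refine ⟨2 ^ (j + 1) * N₀, ?_, ?_⟩
  · exact Nat.le_mul_of_pos_left N₀ (by positivity)
  · have h1 : N₀ ≤ cnt {n | ∃ i, n = 2 ^ j * (2 * i + 1)} (2 ^ (j + 1) * N₀) := by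
      unfold cnt
      have h2 : ((Finset.range N₀).image (fun i => 2 ^ j * (2 * i + 1)) : Set ℕ) ⊆
          {n | ∃ i, n = 2 ^ j * (2 * i + 1)} ∩ Set.Icc 1 (2 ^ (j + 1) * N₀) := by
        intro n hn
        simp only [Finset.coe_image, Set.mem_image, Finset.coe_range, Set.mem_Iio] at hn
        obtain ⟨i, hi, rfl⟩ := hn
        refine ⟨⟨i, rfl⟩, Nat.mul_pos (by positivity) (by omega), ?_⟩
        rw [pow_succ, mul_assoc]
        exact Nat.mul_le_mul_left _ (by omega)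
      have h3 := Set.ncard_le_ncard h2 ((Set.finite_Icc 1 _).subset Set.inter_subset_right)
      rw [Set.ncard_coe_finset, Finset.card_image_of_injective, Finset.card_range] at h3
      · exact h3
      · intro a b hab
        have : 2 * a + 1 = 2 * b + 1 := Nat.eq_of_mul_eq_mul_left (by positivity) hab
        omega
    have h4 : (N₀ : ℝ) ≤ cnt {n | ∃ i, n = 2 ^ j * (2 * i + 1)} (2 ^ (j + 1) * N₀) := by
      exact_mod_cast h1
    refine le_trans ?_ h4
    push_cast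
    have h5 : (1 : ℝ) / 2 ^ (j + 2) * (2 ^ (j + 1) * N₀) = N₀ / 2 := by
      rw [pow_succ (2 : ℝ) (j + 1)]
      field_simp
    rw [h5]
    have : (0 : ℝ) ≤ N₀ := Nat.cast_nonneg _
    linarith

/-- The value of the ratio on the class of exponent `j`. -/
lemma ex_ratio {j τ : ℕ} (hτ : 1 ≤ τ) (hj : padicValNat 2 τ < j) (n : ℕ)
    (hn : n ∈ {n | ∃ i, n = 2 ^ j * (2 * i + 1)}) :
    ‖ex n‖ / ‖ex (n + τ)‖ = ‖(if Even j then 1 else 2 : ℂ)‖ / ‖ex τ‖ := by
  obtain ⟨i, rfl⟩ := hn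
  unfold ex
  rw [val_two, val_add hτ hj]

lemma norm_ex_pos (n : ℕ) : 0 < ‖ex n‖ := by
  rcases ex_or n with h | h <;> rw [h] <;> simp

lemma pos_frequently {A : Set ℕ} (h : Pos A) : ∃ᶠ n in atTop, n ∈ A := by
  by_contra hcon
  rw [not_frequently, eventually_atTop] at hcon
  obtain ⟨n₀, hn₀⟩ := hcon
  obtain ⟨δ, hδ, h1⟩ := h
  obtain ⟨N, h2, h3⟩ := (h1.and_eventually (eventually_ge_atTop (⌈n₀ / δ⌉₊ + 1))).exists
  have h4 : cnt A N ≤ n₀ := by
    unfold cnt
    calc (A ∩ Set.Icc 1 N).ncard ≤ (Set.Iio n₀).ncard := by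
          refine Set.ncard_le_ncard ?_ (Set.finite_Iio n₀)
          rintro n ⟨h5, -⟩
          by_contra h6
          exact hn₀ n (not_lt.1 h6) h5
      _ = n₀ := by rw [Set.ncard_eq_toFinset_card' (Set.Iio n₀)]; simp
  have h5 : (n₀ : ℝ) / δ < N := by
    calc (n₀ : ℝ) / δ ≤ ⌈(n₀ : ℝ) / δ⌉₊ := Nat.le_ceil _
      _ < N := Nat.cast_lt.2 (by omega)
  rw [div_lt_iff₀ hδ] at h5
  have h6 : (cnt A N : ℝ) ≤ n₀ := by exact_mod_cast h4
  linarith

/-- **Main result.** -/
theorem result :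
    (∀ lam mu : ℕ → ℂ, (∀ n, 1 ≤ n → lam n ≠ 0) → ∀ m M : ℝ, 0 < m →
      upperDens {n | ¬ (m * ‖lam n‖ ≤ ‖mu n‖ ∧ ‖mu n‖ ≤ M * ‖lam n‖)} = 0 →
      Good.{u} lam → Good.{u} mu) ∧
    (∀ mu : ℕ → ℂ, ∀ m M : ℝ, 0 < m → upperDens {n | ¬ (m ≤ ‖mu n‖ ∧ ‖mu n‖ ≤ M)} = 0 →
      Good.{u} mu) ∧
    (∃ lam : ℕ → ℂ, (∀ n, lam n = 1 ∨ lam n = 2) ∧ Good.{u} lam ∧
      ∀ τ : ℕ, 1 ≤ τ → ¬ HasRatioLimit lam τ ∧ ∃ r s : ℝ, r ≠ s ∧
        0 < upperDens {n | ‖lam n‖ / ‖lam (n + τ)‖ = r} ∧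
        0 < upperDens {n | ‖lam n‖ / ‖lam (n + τ)‖ = s}) := by
  refine ⟨?_, ?_, ex, ex_or, ?_, ?_⟩
  · intro lam mu hlam m M hm hZ hg
    exact good_of_comparable hlam hm (fun h => absurd ((pos_iff _).2 h) (by rw [hZ]; simp)) hg
  · intro mu m M hm hZ
    exact good_of_bounded hm (fun h => absurd ((pos_iff _).2 h) (by rw [hZ]; simp))
  · refine good_of_bounded (m := 1) (M := 2) one_pos ?_
    have : {n | ¬ (1 ≤ ‖ex n‖ ∧ ‖ex n‖ ≤ 2)} = ∅ := by
      ext n
      rcases ex_or n with h | h <;> simp [h]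
    rw [this]
    exact not_pos_empty
  · intro τ hτ
    set v := padicValNat 2 τ with hv
    have hA : ∀ n ∈ {n | ∃ i, n = 2 ^ (2 * v + 2) * (2 * i + 1)},
        ‖ex n‖ / ‖ex (n + τ)‖ = 1 / ‖ex τ‖ := by
      intro n hn
      rw [ex_ratio hτ (by omega) n hn, if_pos (by exact ⟨v + 1, by ring⟩)]
      simp
    have hB : ∀ n ∈ {n | ∃ i, n = 2 ^ (2 * v + 3) * (2 * i + 1)},
        ‖ex n‖ / ‖ex (n + τ)‖ = 2 / ‖ex τ‖ := by
      intro n hn
      rw [ex_ratio hτ (by omega) n hn, if_neg (by rw [Nat.not_even_iff_odd]; exact ⟨v + 1, by ring⟩)]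
      simp
    have hne : (1 : ℝ) / ‖ex τ‖ ≠ 2 / ‖ex τ‖ := by
      intro h
      have := norm_ex_pos τ
      rw [div_left_inj' this.ne'] at h
      norm_num at h
    refine ⟨?_, 1 / ‖ex τ‖, 2 / ‖ex τ‖, hne, ?_, ?_⟩
    · rintro ⟨a, ha⟩
      have key : ∀ (c : ℝ) (S : Set ℕ), Pos S → (∀ n ∈ S, ‖ex n‖ / ‖ex (n + τ)‖ = c) →
          a = ENNReal.ofReal c := by
        intro c S hS hc
        by_contra hne
        have h1 : ∀ᶠ n in atTop, ENNReal.ofReal (‖ex n‖ / ‖ex (n + τ)‖) ≠ ENNReal.ofReal c :=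
          ha.eventually_ne hne
        obtain ⟨n, h2, h3⟩ := ((pos_frequently hS).and_eventually h1).exists
        exact h3 (by rw [hc n h2])
      have h1 := key _ _ (pos_class _) hA
      have h2 := key _ _ (pos_class _) hB
      rw [h1] at h2
      have h3 := (ENNReal.ofReal_eq_ofReal_iff (by positivity) (by positivity)).1 h2
      exact hne h3
    · exact (pos_iff _).2 (pos_mono (fun n _ hn => hA n hn) (pos_class _))
    · exact (pos_iff _).2 (pos_mono (fun n _ hn => hB n hn) (pos_class _))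

end Pool.Agent.Results.MP_d99131_an.BoundedSequencesAreGood
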