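import Mathlib

/-!
# MP_d99131_an : a good sequence whose ratios `|λ_n| / |λ_{n+τ}|` never converge

* `lam n = exp (-(2^(⌊log₂ n⌋+1))²)`: for every bounded operator `T` on a Banach space,
  `lam n • T^n x → 0` for all `x`, so `(lam n • T^n)` never has property `A` and `lam` is good;
  and for every `τ ≥ 1` the ratio `|lam n| / |lam (n+τ)|` equals `1` infinitely often and is
  `≥ 2` infinitely often.
* `mu n = 2` if `n` is a power of two and `1` otherwise.  If the constant sequence `1` is good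
  (this is the theorem quoted in the problem file, from Szemeredi's theorem), `mu` is good; its
  ratios do not converge either.
-/

open Filter Topology

namespace Pool.Agent.Results.MP_d99131_an.GoodWithoutLimit

/-- Upper density of a set of positive integers. -/
noncomputable def udens (B : Set ℕ) : ℝ :=
  limsup (fun N : ℕ => ((B ∩ Set.Icc 1 N).ncard : ℝ) / N) atTop

section Defs

variable {X : Type*} [NormedAddCommGroup X] [NormedSpace ℂ X]

/-- Property `A` of a sequence of operators (indexed by the positive integers). -/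
def PropertyA (T : ℕ → X →L[ℂ] X) : Prop :=
  ∀ U : Set X, IsOpen U → U.Nonempty → ∃ x : X, 0 < udens {n | T n x ∈ U}

/-- Topological multiple recurrence. -/
def MultiplyRecurrent (T : X →L[ℂ] X) : Prop :=
  ∀ U : Set X, IsOpen U → U.Nonempty → ∀ m : ℕ, 1 ≤ m →
    ∃ k : ℕ, 1 ≤ k ∧ ∃ x : X, ∀ i ≤ m, (T ^ (i * k)) x ∈ U

end Defs

/-- A sequence of nonzero complex numbers is good if, for every infinite-dimensional separable
complex Banach space and every operator `T` on it, property `A` of `(λ_n T^n)` implies that `T` is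
topologically multiply recurrent. -/
def Good.{u} (l : ℕ → ℂ) : Prop :=
  (∀ n, l n ≠ 0) ∧
    ∀ (X : Type u) [NormedAddCommGroup X] [NormedSpace ℂ X] [CompleteSpace X]
      [TopologicalSpace.SeparableSpace X], ¬ FiniteDimensional ℂ X →
      ∀ T : X →L[ℂ] X, PropertyA (fun n => l n • T ^ n) → MultiplyRecurrent T

/-- `lim |l_n| / |l_{n+τ}|` exists in `[0, ∞]`. -/
def RatioLimitExists (l : ℕ → ℂ) (τ : ℕ) : Prop :=
  ∃ c : ENNReal, Tendsto (fun n => ENNReal.ofReal (‖l n‖ / ‖l (n + τ)‖)) atTop (𝓝 c)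

/-! ### Densities -/

lemma ratio_nonneg (B : Set ℕ) (N : ℕ) : 0 ≤ ((B ∩ Set.Icc 1 N).ncard : ℝ) / N := by positivity

lemma ratio_le_one (B : Set ℕ) (N : ℕ) : ((B ∩ Set.Icc 1 N).ncard : ℝ) / N ≤ 1 := by
  rcases Nat.eq_zero_or_pos N with h | h
  · subst h; simp
  · rw [div_le_one (by positivity)]
    have h1 : (B ∩ Set.Icc 1 N).ncard ≤ (Set.Icc 1 N).ncard :=
      Set.ncard_le_ncard Set.inter_subset_right (Set.finite_Icc 1 N)
    have h2 : (Set.Icc 1 N).ncard = N := by
      rw [← Finset.coe_Icc, Set.ncard_coe_finset, Nat.card_Icc]; simp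
    exact_mod_cast h1.trans h2.le

lemma bdd (B : Set ℕ) : IsBoundedUnder (· ≤ ·) atTop
    (fun N : ℕ => ((B ∩ Set.Icc 1 N).ncard : ℝ) / N) :=
  isBoundedUnder_of ⟨1, fun N => ratio_le_one B N⟩

lemma cobdd (B : Set ℕ) : IsCoboundedUnder (· ≤ ·) atTop
    (fun N : ℕ => ((B ∩ Set.Icc 1 N).ncard : ℝ) / N) :=
  IsBoundedUnder.isCoboundedUnder_le (isBoundedUnder_of ⟨0, fun N => ratio_nonneg B N⟩)

/-- If `A ⊆ B ∪ C` where the counting function of `C` is `o(N)`, then positive upper density of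
`A` implies positive upper density of `B`. -/
lemma udens_pos_of_subset {A B C : Set ℕ} (h : A ⊆ B ∪ C)
    (hC : Tendsto (fun N : ℕ => ((C ∩ Set.Icc 1 N).ncard : ℝ) / N) atTop (𝓝 0))
    (hA : 0 < udens A) : 0 < udens B := by
  have h1 : ∃ᶠ N : ℕ in atTop, udens A / 2 < ((A ∩ Set.Icc 1 N).ncard : ℝ) / N :=
    frequently_lt_of_lt_limsup (cobdd A) (by show udens A / 2 < udens A; linarith)
  have h2 : ∀ᶠ N : ℕ in atTop, ((C ∩ Set.Icc 1 N).ncard : ℝ) / N < udens A / 4 :=
    hC.eventually_lt_const (by linarith)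
  have h3 : ∃ᶠ N : ℕ in atTop, udens A / 4 ≤ ((B ∩ Set.Icc 1 N).ncard : ℝ) / N := by
    refine (h1.and_eventually h2).mono ?_
    rintro N ⟨h4, h5⟩
    have h6 : (A ∩ Set.Icc 1 N).ncard ≤ (B ∩ Set.Icc 1 N).ncard + (C ∩ Set.Icc 1 N).ncard := by
      refine le_trans (Set.ncard_le_ncard (t := (B ∩ Set.Icc 1 N) ∪ (C ∩ Set.Icc 1 N)) ?_ ?_)
        (Set.ncard_union_le _ _)
      · rintro n ⟨hn, hn'⟩
        rcases h hn with h' | h'
        · exact Or.inl ⟨h', hn'⟩
        · exact Or.inr ⟨h', hn'⟩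
      · exact ((Set.finite_Icc 1 N).inter_of_right _).union ((Set.finite_Icc 1 N).inter_of_right _)
    have h7 : ((A ∩ Set.Icc 1 N).ncard : ℝ) / N ≤
        ((B ∩ Set.Icc 1 N).ncard : ℝ) / N + ((C ∩ Set.Icc 1 N).ncard : ℝ) / N := by
      rw [← add_div]
      gcongr
      exact_mod_cast h6
    linarith
  have h8 : udens A / 4 ≤ udens B := le_limsup_of_frequently_le h3 (bdd B)
  linarith

lemma count_finite {C : Set ℕ} (hC : C.Finite) :
    Tendsto (fun N : ℕ => ((C ∩ Set.Icc 1 N).ncard : ℝ) / N) atTop (𝓝 0) := by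
  refine squeeze_zero (fun N => ratio_nonneg C N) (fun N => ?_)
    (tendsto_const_div_atTop_nhds_zero_nat (C.ncard : ℝ))
  gcongr
  exact Set.inter_subset_left

lemma udens_empty : udens ∅ = 0 := by
  unfold udens
  simp

lemma udens_finite {C : Set ℕ} (hC : C.Finite) : ¬ 0 < udens C := by
  intro h
  have := udens_pos_of_subset (A := C) (B := ∅) (C := C) (by simp) (count_finite hC) h
  rw [udens_empty] at this
  exact lt_irrefl _ this

/-! ### The unconditional example -/

/-- `lam n = exp (-(2^(⌊log₂ n⌋+1))²)`. -/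
noncomputable def lam (n : ℕ) : ℂ := (Real.exp (-((2:ℝ) ^ (Nat.log 2 n + 1)) ^ 2) : ℝ)

lemma norm_lam (n : ℕ) : ‖lam n‖ = Real.exp (-((2:ℝ) ^ (Nat.log 2 n + 1)) ^ 2) := by
  unfold lam
  rw [Complex.norm_real, Real.norm_of_nonneg (Real.exp_pos _).le]

lemma lam_ne (n : ℕ) : lam n ≠ 0 := by
  rw [← norm_pos_iff, norm_lam]; exact Real.exp_pos _

lemma norm_lam_le (n : ℕ) : ‖lam n‖ ≤ Real.exp (-(n:ℝ)) ^ n := by
  rw [norm_lam, ← Real.exp_nat_mul]
  apply Real.exp_le_exp.2
  have h1 : (n:ℝ) ≤ 2 ^ (Nat.log 2 n + 1) := by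
    have := Nat.lt_pow_succ_log_self (b := 2) (by norm_num) n
    exact_mod_cast this.le
  have h0 : (0:ℝ) ≤ n := by positivity
  nlinarith

lemma lam_tendsto {X : Type*} [NormedAddCommGroup X] [NormedSpace ℂ X] (T : X →L[ℂ] X) (x : X) :
    Tendsto (fun n => (lam n • T ^ n) x) atTop (𝓝 0) := by
  rw [tendsto_zero_iff_norm_tendsto_zero]
  have h1 : Tendsto (fun n : ℕ => (‖T‖ + 1) * Real.exp (-(n:ℝ))) atTop (𝓝 0) := by
    have h2 : Tendsto (fun n : ℕ => Real.exp (-(n:ℝ))) atTop (𝓝 0) :=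
      Real.tendsto_exp_neg_atTop_nhds_zero.comp tendsto_natCast_atTop_atTop
    simpa using h2.const_mul (‖T‖ + 1)
  have h2 : ∀ᶠ n : ℕ in atTop, ‖(lam n • T ^ n) x‖ ≤ (1/2) ^ n * ‖x‖ := by
    filter_upwards [h1.eventually_le_const (show (0:ℝ) < 1/2 by norm_num)] with n hn
    have h3 : ‖(lam n • T ^ n) x‖ ≤ Real.exp (-(n:ℝ)) ^ n * ((‖T‖ + 1) ^ n * ‖x‖) := by
      rw [ContinuousLinearMap.smul_apply, norm_smul]
      have h4 : ‖(T ^ n) x‖ ≤ (‖T‖ + 1) ^ n * ‖x‖ := by
        have h5 : ‖T ^ n‖ ≤ (‖T‖ + 1) ^ n := by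
          rcases Nat.eq_zero_or_pos n with h | h
          · subst h
            simp only [pow_zero]
            exact ContinuousLinearMap.norm_id_le
          · exact (norm_pow_le' T h).trans (by gcongr; linarith)
        exact (ContinuousLinearMap.le_opNorm _ _).trans (by gcongr)
      exact mul_le_mul (norm_lam_le n) h4 (norm_nonneg _) (by positivity)
    refine h3.trans ?_
    rw [← mul_assoc, ← mul_pow]
    have h6 : Real.exp (-(n:ℝ)) * (‖T‖ + 1) ≤ 1/2 := by rw [mul_comm]; exact hn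
    gcongr
  refine squeeze_zero' (Eventually.of_forall fun n => norm_nonneg _) h2 ?_
  have : Tendsto (fun n : ℕ => ((1:ℝ)/2) ^ n) atTop (𝓝 0) :=
    tendsto_pow_atTop_nhds_zero_of_lt_one (by norm_num) (by norm_num)
  simpa using this.mul_const ‖x‖

lemma lam_not_propertyA {X : Type*} [NormedAddCommGroup X] [NormedSpace ℂ X] [Nontrivial X]
    (T : X →L[ℂ] X) : ¬ PropertyA (fun n => lam n • T ^ n) := by
  intro h
  have hU : IsOpen {x : X | 1 < ‖x‖} := isOpen_lt continuous_const continuous_norm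
  have hne : {x : X | 1 < ‖x‖}.Nonempty := by
    obtain ⟨x, hx⟩ := NormedSpace.exists_lt_norm ℂ X 1
    exact ⟨x, hx⟩
  obtain ⟨x, hx⟩ := h _ hU hne
  refine udens_finite ?_ hx
  have h1 : ∀ᶠ n in atTop, ‖(lam n • T ^ n) x‖ < 1 := by
    have := (lam_tendsto T x).norm
    rw [norm_zero] at this
    exact this.eventually_lt_const zero_lt_one
  obtain ⟨N, hN⟩ := eventually_atTop.1 h1
  refine (Set.finite_lt_nat N).subset ?_
  intro n hn
  by_contra hcon
  have := hN n (not_lt.1 hcon)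
  have h2 : 1 < ‖(lam n • T ^ n) x‖ := hn
  linarith

lemma lam_no_limit (τ : ℕ) (hτ : 1 ≤ τ) : ¬ RatioLimitExists lam τ := by
  rintro ⟨c, hc⟩
  have hlog : ∀ k a : ℕ, 2 ^ k ≤ a → a < 2 ^ (k+1) → Nat.log 2 a = k := fun k a h1 h2 =>
    Nat.log_eq_of_pow_le_of_lt_pow h1 h2
  have hgt : ∀ k : ℕ, k < 2 ^ k := fun k => Nat.lt_two_pow_self
  -- along `2^k` the ratio is `1`
  have t1 : Tendsto (fun k : ℕ => 2 ^ k) atTop (atTop : Filter ℕ) :=
    tendsto_atTop_mono (fun k => (hgt k).le) tendsto_id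
  have h1 : c = 1 := by
    refine tendsto_nhds_unique (hc.comp t1) ?_
    refine Tendsto.congr' ?_ tendsto_const_nhds
    filter_upwards [eventually_ge_atTop τ] with k hk
    have e1 : Nat.log 2 (2 ^ k) = k := hlog k _ le_rfl (by rw [pow_succ]; have := hgt k; omega)
    have e2 : Nat.log 2 (2 ^ k + τ) = k :=
      hlog k _ (by omega) (by rw [pow_succ]; have := hgt k; omega)
    simp only [Function.comp_apply, norm_lam, e1, e2]
    rw [div_self (Real.exp_pos _).ne', ENNReal.ofReal_one]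
  -- along `2^(k+1) - 1` the ratio is at least `2`
  have t2 : Tendsto (fun k : ℕ => 2 ^ (k+1) - 1) atTop (atTop : Filter ℕ) :=
    tendsto_atTop_mono (fun k => by have := hgt (k+1); simp only [id]; omega) tendsto_id
  have h2 : (2:ENNReal) ≤ c := by
    refine ge_of_tendsto (hc.comp t2) ?_
    filter_upwards [eventually_ge_atTop τ] with k hk
    have hk' := hgt (k+1)
    have e1 : Nat.log 2 (2 ^ (k+1) - 1) = k := by
      refine hlog k _ ?_ ?_
      · have := hgt k; rw [pow_succ]; omega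
      · omega
    have e2 : Nat.log 2 (2 ^ (k+1) - 1 + τ) = k+1 := by
      refine hlog (k+1) _ ?_ ?_
      · omega
      · rw [pow_succ 2 (k+1)]; omega
    simp only [Function.comp_apply, norm_lam, e1, e2]
    rw [← Real.exp_sub]
    have h3 : (2:ℝ) ≤ Real.exp (-((2:ℝ) ^ (k+1)) ^ 2 - -((2:ℝ) ^ (k+1+1)) ^ 2) := by
      refine le_trans ?_ (Real.add_one_le_exp _)
      have h4 : (1:ℝ) ≤ 2 ^ (k+1) := one_le_pow₀ (by norm_num)
      have h5 : ((2:ℝ) ^ (k+1+1)) = 2 * 2 ^ (k+1) := by rw [pow_succ]; ring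
      rw [h5]
      nlinarith
    have := ENNReal.ofReal_le_ofReal h3
    simpa using this
  rw [h1] at h2
  norm_num at h2

/-! ### The two-valued example -/

/-- `mu n = 2` if `n` is a power of two and `1` otherwise. -/
noncomputable def mu (n : ℕ) : ℂ := by
  classical exact if ∃ k, n = 2 ^ k then 2 else 1

lemma mu_pow (k : ℕ) : mu (2 ^ k) = 2 := by
  unfold mu; rw [if_pos ⟨k, rfl⟩]

lemma mu_not {n : ℕ} (h : ¬ ∃ k, n = 2 ^ k) : mu n = 1 := by
  unfold mu; rw [if_neg h]

lemma mu_ne (n : ℕ) : mu n ≠ 0 := by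
  unfold mu; split_ifs <;> norm_num

lemma between {k n : ℕ} (h1 : 2 ^ k < n) (h2 : n < 2 ^ (k+1)) : ¬ ∃ j, n = 2 ^ j := by
  rintro ⟨j, rfl⟩
  have a := (Nat.pow_lt_pow_iff_right (a := 2) (by norm_num)).1 h1
  have b := (Nat.pow_lt_pow_iff_right (a := 2) (by norm_num)).1 h2
  omega

lemma mu_no_limit (τ : ℕ) (hτ : 1 ≤ τ) : ¬ RatioLimitExists mu τ := by
  rintro ⟨c, hc⟩
  have hgt : ∀ k : ℕ, k < 2 ^ k := fun k => Nat.lt_two_pow_self
  have t1 : Tendsto (fun k : ℕ => 2 ^ k) atTop (atTop : Filter ℕ) :=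
    tendsto_atTop_mono (fun k => (hgt k).le) tendsto_id
  have h1 : c = 2 := by
    refine tendsto_nhds_unique (hc.comp t1) ?_
    refine Tendsto.congr' ?_ tendsto_const_nhds
    filter_upwards [eventually_ge_atTop τ] with k hk
    have hk' := hgt k
    have e2 : mu (2 ^ k + τ) = 1 := mu_not (between (k := k) (by omega) (by rw [pow_succ]; omega))
    simp only [Function.comp_apply, mu_pow, e2]
    norm_num
  have t2 : Tendsto (fun k : ℕ => 2 ^ k + 1) atTop (atTop : Filter ℕ) :=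
    tendsto_atTop_mono (fun k => by have := hgt k; simp only [id]; omega) tendsto_id
  have h2 : c = 1 := by
    refine tendsto_nhds_unique (hc.comp t2) ?_
    refine Tendsto.congr' ?_ tendsto_const_nhds
    filter_upwards [eventually_ge_atTop (τ + 1)] with k hk
    have hk' := hgt k
    have e1 : mu (2 ^ k + 1) = 1 := mu_not (between (k := k) (by omega) (by rw [pow_succ]; omega))
    have e2 : mu (2 ^ k + 1 + τ) = 1 :=
      mu_not (between (k := k) (by omega) (by rw [pow_succ]; omega))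
    simp only [Function.comp_apply, e1, e2]
    norm_num
  rw [h1] at h2
  norm_num at h2

lemma pow_count : Tendsto (fun N : ℕ => (({n | ∃ k, n = 2 ^ k} ∩ Set.Icc 1 N).ncard : ℝ) / N)
    atTop (𝓝 0) := by
  have h1 : ∀ N : ℕ, ({n | ∃ k, n = 2 ^ k} ∩ Set.Icc 1 N).ncard ≤ Nat.log 2 N + 1 := by
    intro N
    have hsub : ({n | ∃ k, n = 2 ^ k} ∩ Set.Icc 1 N) ⊆
        ((Finset.range (Nat.log 2 N + 1)).image (fun k => 2 ^ k) : Finset ℕ) := by
      rintro n ⟨⟨k, rfl⟩, hn⟩
      simp only [Finset.coe_image, Set.mem_image, Finset.coe_range, Set.mem_Iio]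
      refine ⟨k, ?_, rfl⟩
      have := Nat.le_log_of_pow_le (b := 2) (by norm_num) hn.2
      omega
    refine (Set.ncard_le_ncard hsub (Finset.finite_toSet _)).trans ?_
    rw [Set.ncard_coe_finset]
    exact Finset.card_image_le.trans (by simp)
  have h2 : ∀ N : ℕ, ((Nat.log 2 N + 1 : ℕ) : ℝ) ^ 2 ≤ 36 * N + 1 := by
    intro N
    rcases Nat.eq_zero_or_pos N with h | h
    · subst h; simp
    · have h3 : 2 ^ (Nat.log 2 N) ≤ N := Nat.pow_log_le_self 2 h.ne'
      have h4 : ∀ a : ℕ, (a + 1) ^ 2 ≤ 36 * 2 ^ a + 1 := by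
        intro a
        have h5 : ∀ b : ℕ, (b + 1) ^ 2 ≤ 4 * 2 ^ b := by
          intro b
          induction b with
          | zero => norm_num
          | succ b ih =>
            rcases Nat.lt_or_ge b 2 with hb | hb
            · interval_cases b <;> norm_num
            · rw [pow_succ 2 b]; nlinarith
        have := h5 a
        have h6 : 0 < 2 ^ a := by positivity
        nlinarith
      have h5 := h4 (Nat.log 2 N)
      have h6 : (Nat.log 2 N + 1) ^ 2 ≤ 36 * N + 1 := h5.trans (by omega)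
      exact_mod_cast h6
  have h3 : Tendsto (fun N : ℕ => 7 / Real.sqrt N) atTop (𝓝 0) := by
    refine Tendsto.div_atTop tendsto_const_nhds ?_
    exact Real.tendsto_sqrt_atTop.comp tendsto_natCast_atTop_atTop
  refine squeeze_zero' (Eventually.of_forall fun N => ratio_nonneg _ N) ?_ h3
  filter_upwards [eventually_ge_atTop 1] with N hN
  have hN' : (1:ℝ) ≤ N := by exact_mod_cast hN
  have hs : 0 < Real.sqrt N := Real.sqrt_pos.2 (by linarith)
  have h4 : (({n | ∃ k, n = 2 ^ k} ∩ Set.Icc 1 N).ncard : ℝ) ≤ 7 * Real.sqrt N := by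
    have h5 : (({n | ∃ k, n = 2 ^ k} ∩ Set.Icc 1 N).ncard : ℝ) ≤ ((Nat.log 2 N + 1 : ℕ) : ℝ) := by
      exact_mod_cast h1 N
    refine h5.trans ?_
    have h6 := h2 N
    have h7 : Real.sqrt N ^ 2 = N := Real.sq_sqrt (by linarith)
    refine le_of_pow_le_pow_left₀ (n := 2) (by norm_num) (by positivity) ?_
    rw [mul_pow, h7]
    linarith
  rw [div_le_div_iff₀ (by linarith) hs]
  have h7 : Real.sqrt N * Real.sqrt N = N := Real.mul_self_sqrt (by linarith)
  calc _ ≤ 7 * Real.sqrt N * Real.sqrt N := by gcongr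
    _ = 7 * N := by rw [mul_assoc, h7]

lemma mu_propertyA {X : Type*} [NormedAddCommGroup X] [NormedSpace ℂ X] {T : X →L[ℂ] X}
    (h : PropertyA (fun n => mu n • T ^ n)) : PropertyA (fun n => (fun _ => (1:ℂ)) n • T ^ n) := by
  intro U hU hne
  obtain ⟨x, hx⟩ := h U hU hne
  refine ⟨x, udens_pos_of_subset (C := {n | ∃ k, n = 2 ^ k}) ?_ pow_count hx⟩
  intro n hn
  by_cases hp : ∃ k, n = 2 ^ k
  · exact Or.inr hp
  · left
    have h1 : (mu n • T ^ n) x ∈ U := hn
    rw [mu_not hp] at h1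
    exact h1

/-- Main theorem.  Disproof of Q1: there is a good sequence of nonzero complex numbers such that
for every positive integer `τ` the ratio `|λ_n| / |λ_{n+τ}|` has no limit in `[0, ∞]`.
Moreover, if the constant sequence `1` is good (known), then a sequence with values in `{1, 2}`,
equal to `1` outside the powers of two, is another example. -/
theorem result.{u} :
    (∃ l : ℕ → ℂ, Good.{u} l ∧ ∀ τ : ℕ, 1 ≤ τ → ¬ RatioLimitExists l τ) ∧
    (Good.{u} (fun _ => 1) → ∃ l : ℕ → ℂ, (∀ n, l n = 1 ∨ l n = 2) ∧ Good.{u} l ∧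
      ∀ τ : ℕ, 1 ≤ τ → ¬ RatioLimitExists l τ) := by
  refine ⟨⟨lam, ⟨lam_ne, ?_⟩, lam_no_limit⟩, fun hg => ⟨mu, ?_, ⟨mu_ne, ?_⟩, mu_no_limit⟩⟩
  · intro X _ _ _ _ hX T hA
    haveI : Nontrivial X := by
      by_contra hcon
      rw [not_nontrivial_iff_subsingleton] at hcon
      exact hX inferInstance
    exact absurd hA (lam_not_propertyA T)
  · intro n
    by_cases hp : ∃ k, n = 2 ^ k
    · obtain ⟨k, rfl⟩ := hp; exact Or.inr (mu_pow k)
    · exact Or.inl (mu_not hp)
  · intro X _ _ _ _ hX T hA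
    exact hg.2 X hX T (mu_propertyA hA)

end Pool.Agent.Results.MP_d99131_an.GoodWithoutLimit
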